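import Pool.Agent.Y891.KE.Lin

set_option autoImplicit false
set_option linter.unusedSectionVars false
set_option linter.unusedVariables false

/-! Project KE (helper714): brackets vanish only on null sets. -/

namespace Pool.Agent.Y891.KE

open Pool.Agent.Y714.KF (FI sp ct nm pm ext br gl ubas qf bk el sg bf rc sg_rc sg_add sg_smul
  bf_comb2 continuous_sg sg_ne continuous_br continuous_pm pm_pos br_gl)
open Pool.Agent.Y714.KE
open Pool.Agent.Y455.KF (null_ker)
open NumberField FractionalIdeal Module Finset ComplexConjugate MeasureTheory Filter Topology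
open scoped nonZeroDivisors

variable {s : Type} [Fintype s] [DecidableEq s] (K : s → Type) [∀ i, Field (K i)]
  [∀ i, NumberField (K i)]

theorem brn : S_BRN K := by
  intro b e f hef
  classical
  let E := MeasurableEquiv.sumPiEquivProdPi (fun _ : Ix K ⊕ Ix K => ℝ)
  have hE : MeasurePreserving E := volume_measurePreserving_sumPiEquivProdPi _
  let Z : Set ((Ix K → ℝ) × (Ix K → ℝ)) :=
    {p | SG b e p.1 * SG b f p.2 - SG b e p.2 * SG b f p.1 = 0}
  have hZc : IsClosed Z := by
    have h1 := continuous_SG b e
    have h2 := continuous_SG b f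
    have h3 : Continuous fun p : (Ix K → ℝ) × (Ix K → ℝ) =>
        SG b e p.1 * SG b f p.2 - SG b e p.2 * SG b f p.1 :=
      ((h1.comp continuous_fst).mul (h2.comp continuous_snd)).sub
        ((h1.comp continuous_snd).mul (h2.comp continuous_fst))
    exact isClosed_eq h3 continuous_const
  have hZ : {u : Ix K ⊕ Ix K → ℝ | br (rw2 b u e) (rw2 b u f) = 0} = E ⁻¹' Z := rfl
  rw [hZ, hE.measure_preimage hZc.measurableSet.nullMeasurableSet, Measure.volume_eq_prod,
    Measure.measure_prod_null hZc.measurableSet]
  -- almost every `x`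
  have h1 : ∀ᵐ x : Ix K → ℝ, SG b e x ≠ 0 := by
    rw [ae_iff]
    simp only [not_not]
    refine null_ker (SG b e) (rcA b 1) ?_
    rw [SG_rcA, Pi.one_apply, map_one]
    exact one_ne_zero
  filter_upwards [h1] with x hx
  -- the linear map
  let L : (Ix K → ℝ) →ₗ[ℝ] ℂ := (SG b e x) • SG b f - (SG b f x) • SG b e
  have hL : ∀ y, L y = SG b e x * SG b f y - SG b e y * SG b f x := by
    intro y
    show SG b e x * SG b f y - SG b f x * SG b e y = _
    ring
  have hne : ∃ y, L y ≠ 0 := by
    by_contra hcon
    push Not at hcon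
    have e1 : SG b e x = SG b f x := by
      have h := hcon (rcA b 1)
      rw [hL, SG_rcA, SG_rcA, Pi.one_apply, Pi.one_apply, map_one, map_one] at h
      linear_combination h
    apply hef
    apply em_ext
    intro θ
    have h := hcon (rcA b θ)
    rw [hL, SG_rcA, SG_rcA, ← e1] at h
    have h2 : SG b e x * (f.2 (θ f.1) - e.2 (θ e.1)) = 0 := by linear_combination h
    rcases mul_eq_zero.1 h2 with h3 | h3
    · exact absurd h3 hx
    · exact (sub_eq_zero.1 h3).symm
  obtain ⟨y, hy⟩ := hne
  have := null_ker L y hy
  simp only [hL] at this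
  exact this

end Pool.Agent.Y891.KE
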