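import Pool.Agent.Y891.KE.Lin

set_option autoImplicit false
set_option linter.unusedSectionVars false
set_option linter.unusedVariables false

/-! Project KE (helper714): the boundary of the region is a null set. -/

namespace Pool.Agent.Y891.KE

open Pool.Agent.Y714.KF (FI sp ct nm pm ext br gl ubas qf bk el sg bf rc sg_rc sg_add sg_smul
  bf_comb2 continuous_sg sg_ne continuous_br continuous_pm pm_pos br_gl pm_gl)
open Pool.Agent.Y714.KE
open Pool.Agent.Y455.KF (null_ker)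
open Pool.Agent.Y179.KF (mt mt_null null_of_levels)
open NumberField FractionalIdeal Module Finset ComplexConjugate MeasureTheory Filter Topology
open scoped nonZeroDivisors

variable {s : Type} [Fintype s] [DecidableEq s] {K : s → Type} [∀ i, Field (K i)]
  [∀ i, NumberField (K i)]

theorem nul (h1 : S_CCC K) (h2 : S_BRN K) : S_NUL K := by
  classical
  intro hodd hn B i₀
  have hcc : ∀ j, ContinuousOn (fun u => cc (rw2 B u) j) (Ub B) := (h1 hodd hn B).1
  have hui : ∀ i, ContinuousOn (fun u => ui (rw2 B u) i) (Ub B) := (h1 hodd hn B).2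
  -- abbreviations
  let q1 : (Ix K ⊕ Ix K → ℝ) → ℝ := fun u => bfA B (lf u) (lf u)
  let q2 : (Ix K ⊕ Ix K → ℝ) → ℝ := fun u => bfA B (rt u) (rt u)
  let S : (Ix K ⊕ Ix K → ℝ) → ℝ := fun u => bfA B (lf u) (rt u)
  let P : (Ix K ⊕ Ix K → ℝ) → ℝ := fun u => pm (rw2 B u)
  have cq1 : Continuous q1 := continuous_bfA B continuous_lf continuous_lf
  have cq2 : Continuous q2 := continuous_bfA B continuous_rt continuous_rt
  have cs : Continuous S := continuous_bfA B continuous_lf continuous_rt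
  have cP : Continuous P := continuous_pm.comp (cont_rw2 B)
  have q1m : ∀ a b c d u, q1 (mt a b c d u) = a ^ 2 * q1 u + 2 * a * b * S u + b ^ 2 * q2 u := by
    intro a b c d u
    show bfA B (lf (mt a b c d u)) (lf (mt a b c d u)) = _
    rw [lf_mt, bfA_comb]
  have q2m : ∀ a b c d u, q2 (mt a b c d u) = c ^ 2 * q1 u + 2 * c * d * S u + d ^ 2 * q2 u := by
    intro a b c d u
    show bfA B (rt (mt a b c d u)) (rt (mt a b c d u)) = _
    rw [rt_mt, bfA_comb]
  have sm : ∀ a b c d u, S (mt a b c d u) =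
      a * c * q1 u + (a * d + b * c) * S u + b * d * q2 u := by
    intro a b c d u
    show bfA B (lf (mt a b c d u)) (rt (mt a b c d u)) = _
    rw [lf_mt, rt_mt, bfA_comb2]
  -- the null sets
  have hcard : Fintype.card (Em K) = dg K := card_Em
  have hcard2 : 2 ≤ Fintype.card (Em K) := by omega
  have hn0 : dg K ≠ 0 := by omega
  have htt : ∀ t : ℝ, 0 < t → (t * t - 0 * 0 : ℝ) ≠ 0 := by
    intro t ht
    have : t * t - 0 * 0 = t * t := by ring
    rw [this]; positivity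
  have n1 : ∀ c : ℝ, 0 < c → volume {u | q1 u = c} = 0 := by
    intro c hc
    refine null_of_levels _ q1 cq1.measurable (fun t => t ^ 2 * c) ?_ (fun t => mt t 0 0 t)
      (fun t ht S hS => mt_null _ _ _ _ (htt t ht) S hS) ?_
    · intro t ht t' ht' h
      have h3 : t ^ 2 = t' ^ 2 := mul_right_cancel₀ hc.ne' h
      exact (pow_left_inj₀ (le_of_lt ht) (le_of_lt ht') two_ne_zero).1 h3
    · intro t ht u hu
      have hu' : q1 u = c := hu
      rw [q1m, hu']
      ring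
  have n2 : volume {u | P u = 1} = 0 := by
    refine null_of_levels _ P cP.measurable (fun t => t ^ (2 * dg K)) ?_ (fun t => mt t 0 0 t)
      (fun t ht S hS => mt_null _ _ _ _ (htt t ht) S hS) ?_
    · intro t ht t' ht' h
      exact (pow_left_inj₀ (le_of_lt ht) (le_of_lt ht') (by omega)).1 h
    · intro t ht u hu
      show pm (rw2 B (mt t 0 0 t u)) = t ^ (2 * dg K)
      rw [rw2_mt, pm_gl, hcard]
      have h3 : pm (rw2 B u) = 1 := hu
      rw [h3, mul_one]
      have h4 : ((t : ℂ) * t - ((0 : ℝ) : ℂ) * ((0 : ℝ) : ℂ)) = ((t ^ 2 : ℝ) : ℂ) := by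
        push_cast; ring
      rw [h4, Complex.norm_real, Real.norm_eq_abs, abs_of_pos (by positivity), ← pow_mul]
  have n3 : volume {u | q1 u = q2 u ∧ q1 u ≠ 0} = 0 := by
    refine null_of_levels _ (fun u => q2 u / q1 u) (cq2.measurable.div cq1.measurable)
      (fun t => t ^ 2) ?_ (fun t => mt 1 0 0 t)
      (fun t ht S hS => mt_null _ _ _ _ (by
        have : 1 * t - 0 * 0 = t := by ring
        rw [this]; exact ht.ne') S hS) ?_
    · intro t ht t' ht' h
      exact (pow_left_inj₀ (le_of_lt ht) (le_of_lt ht') two_ne_zero).1 h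
    · rintro t ht u ⟨hu, hu0⟩
      show q2 (mt 1 0 0 t u) / q1 (mt 1 0 0 t u) = t ^ 2
      have a1 : q1 (mt 1 0 0 t u) = q1 u := by rw [q1m]; ring
      have a2 : q2 (mt 1 0 0 t u) = t ^ 2 * q1 u := by rw [q2m, ← hu]; ring
      rw [a1, a2, mul_div_assoc, div_self hu0, mul_one]
  have n4 : ∀ c : ℝ, volume {u | S u = c * q1 u ∧ q1 u ≠ 0} = 0 := by
    intro c
    refine null_of_levels _ (fun u => S u / q1 u) (cs.measurable.div cq1.measurable)
      (fun t => c + t) ?_ (fun t => mt 1 0 t 1)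
      (fun t ht S hS => mt_null _ _ _ _ (by
        have : 1 * 1 - 0 * t = 1 := by ring
        rw [this]; exact one_ne_zero) S hS) ?_
    · intro t _ t' _ h
      exact add_left_cancel h
    · rintro t ht u ⟨hu, hu0⟩
      show S (mt 1 0 t 1 u) / q1 (mt 1 0 t 1 u) = c + t
      have a1 : q1 (mt 1 0 t 1 u) = q1 u := by rw [q1m]; ring
      have a2 : S (mt 1 0 t 1 u) = (c + t) * q1 u := by rw [sm, hu]; ring
      rw [a1, a2, mul_div_assoc, div_self hu0, mul_one]
  -- U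
  have hUc : volume (Ub B)ᶜ = 0 := null_Ubc h2 B
  have hUo : IsOpen (Ub B) := isOpen_Ub B
  -- levels of the sizes
  let w : s → (Ix K ⊕ Ix K → ℝ) → ℝ := fun i =>
    (Ub B).piecewise (fun u => ui (rw2 B u) i) (fun _ => 0)
  have hw : ∀ i, Measurable (w i) := fun i =>
    (hui i).measurable_piecewise continuousOn_const hUo.measurableSet
  have hwU : ∀ i, ∀ u ∈ Ub B, w i u = ui (rw2 B u) i := fun i u hu =>
    Set.piecewise_eq_of_mem _ _ _ hu
  have n5 : ∀ (i : s) (c : ℝ), volume {u | ui (rw2 B u) i = c ∧ u ∈ Ub B} = 0 := by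
    intro i c
    refine null_of_levels _ (w i) (hw i) (fun t => c + (1 / 2) * Real.log (t ^ 2)) ?_
      (fun t => mt t 0 0 t) (fun t ht S hS => mt_null _ _ _ _ (htt t ht) S hS) ?_
    · intro t ht t' ht' h
      have h3 : Real.log (t ^ 2) = Real.log (t' ^ 2) := by
        have : c + (1 / 2) * Real.log (t ^ 2) = c + (1 / 2) * Real.log (t' ^ 2) := h
        linarith
      have ht0 : (0 : ℝ) < t := ht
      have ht0' : (0 : ℝ) < t' := ht'
      have h4 := Real.log_injOn_pos (show t ^ 2 ∈ Set.Ioi (0 : ℝ) from (by positivity : 0 < t ^ 2))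
        (show t' ^ 2 ∈ Set.Ioi (0 : ℝ) from (by positivity : 0 < t' ^ 2)) h3
      exact (pow_left_inj₀ ht0.le ht0'.le two_ne_zero).1 h4
    · rintro t ht u ⟨hu, hU⟩
      rw [hwU i _ (Ub_mt hU (htt t ht)), rw2_mt]
      have hv : 0 < pm (rw2 B u) := pm_pos hcard2 hU
      have hx := pm_ext_pos hodd hv
      have h4 : ((t : ℂ) * t - ((0 : ℝ) : ℂ) * ((0 : ℝ) : ℂ)) = ((t ^ 2 : ℝ) : ℂ) := by
        push_cast; ring
      have h5 : ((t : ℂ) * t - ((0 : ℝ) : ℂ) * ((0 : ℝ) : ℂ)) ≠ 0 := by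
        rw [h4]
        have : t ^ 2 ≠ 0 := by positivity
        exact_mod_cast this
      rw [(gla (rw2 B u) hv hx t ((0 : ℝ) : ℂ) ((0 : ℝ) : ℂ) t h5).2 i, hu, h4,
        Complex.norm_real, Real.norm_eq_abs, abs_of_pos (by positivity)]
  -- the normalisation
  let g : Ux K → (Ix K ⊕ Ix K → ℝ) → ℝ := fun j =>
    (Ub B).piecewise (fun u => cc (rw2 B u) j) (fun _ => 0)
  have hg : ∀ j, Measurable (g j) := fun j =>
    (hcc j).measurable_piecewise continuousOn_const hUo.measurableSet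
  have hgU : ∀ j, ∀ u ∈ Ub B, g j u = cc (rw2 B u) j := fun j u hu =>
    Set.piecewise_eq_of_mem _ _ _ hu
  refine ⟨fun j => {t : ℝ | 0 < volume {u | g j u = t}} ∪
        (fun t => t - 1) '' {t : ℝ | 0 < volume {u | g j u = t}}, ?_, ?_⟩
  · intro j
    have hc := Measure.countable_meas_level_set_pos
      (μ := (volume : Measure (Ix K ⊕ Ix K → ℝ))) (hg j)
    exact hc.union (hc.image (fun t => t - 1))
  intro κ hκ δ hδ
  have hκ1 : ∀ j, volume {u | g j u = κ j} = 0 := by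
    intro j
    have h3 := hκ j
    rw [Set.mem_union, not_or] at h3
    by_contra h0
    exact h3.1 (pos_iff_ne_zero.2 h0)
  have hκ2 : ∀ j, volume {u | g j u = κ j + 1} = 0 := by
    intro j
    have h3 := hκ j
    rw [Set.mem_union, not_or] at h3
    by_contra h0
    exact h3.2 ⟨κ j + 1, pos_iff_ne_zero.2 h0, by ring⟩
  have hδ2 : 0 < δ ^ 2 := by positivity
  have hsub : closure (Dc B κ i₀ δ) \ Dm B κ i₀ δ ⊆ (Ub B)ᶜ ∪ ({u | q1 u = δ ^ 2} ∪
      ({u | P u = 1} ∪
      ({u | q1 u = q2 u ∧ q1 u ≠ 0} ∪ ({u | S u = 0 * q1 u ∧ q1 u ≠ 0} ∪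
      ({u | S u = (1 / 2) * q1 u ∧ q1 u ≠ 0} ∪ ((⋃ j, {u | g j u = κ j}) ∪
      ((⋃ j, {u | g j u = κ j + 1}) ∪ ((⋃ i, {u | ui (rw2 B u) i = 0 ∧ u ∈ Ub B}) ∪
      (⋃ i, {u | ui (rw2 B u) i = 1 ∧ u ∈ Ub B}))))))))) := by
    rintro u ⟨hu, hnu⟩
    by_cases hU : u ∈ Ub B
    swap
    · exact Or.inl hU
    have c1 : δ ^ 2 ≤ q1 u := closure_minimal (s := Dc B κ i₀ δ) (t := {u | δ ^ 2 ≤ q1 u})
      (fun v hv => hv.1) (isClosed_le continuous_const cq1) hu
    have c2 : q1 u ≤ q2 u := closure_minimal (s := Dc B κ i₀ δ) (t := {u | q1 u ≤ q2 u})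
      (fun v hv => hv.2.1) (isClosed_le cq1 cq2) hu
    have c3 : 0 ≤ S u := closure_minimal (s := Dc B κ i₀ δ) (t := {u | 0 ≤ S u})
      (fun v hv => hv.2.2.1) (isClosed_le continuous_const cs) hu
    have c4 : 2 * S u ≤ q1 u := closure_minimal (s := Dc B κ i₀ δ) (t := {u | 2 * S u ≤ q1 u})
      (fun v hv => hv.2.2.2.1) (isClosed_le (continuous_const.mul cs) cq1) hu
    have c5 : P u ≤ 1 := closure_minimal (s := Dc B κ i₀ δ) (t := {u | P u ≤ 1})
      (fun v hv => hv.2.2.2.2.2.1) (isClosed_le cP continuous_const) hu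
    have c6 : ∀ j, κ j ≤ cc (rw2 B u) j ∧ cc (rw2 B u) j ≤ κ j + 1 := by
      intro j
      have h3 : ContinuousWithinAt (fun u => cc (rw2 B u) j) (Dc B κ i₀ δ) u :=
        ((hcc j).continuousAt (hUo.mem_nhds hU)).continuousWithinAt
      have h4 := h3.mem_closure hu (fun v hv => (show cc (rw2 B v) j ∈ Set.Icc (κ j) (κ j + 1) from
        hv.2.2.2.2.2.2.1 j))
      rw [isClosed_Icc.closure_eq] at h4
      exact h4
    have c7 : ∀ i, i ≠ i₀ → 0 ≤ ui (rw2 B u) i ∧ ui (rw2 B u) i ≤ 1 := by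
      intro i hi
      have h3 : ContinuousWithinAt (fun u => ui (rw2 B u) i) (Dc B κ i₀ δ) u :=
        ((hui i).continuousAt (hUo.mem_nhds hU)).continuousWithinAt
      have h4 := h3.mem_closure hu (fun v hv => (show ui (rw2 B v) i ∈ Set.Icc (0 : ℝ) 1 from
        hv.2.2.2.2.2.2.2 i hi))
      rw [isClosed_Icc.closure_eq] at h4
      exact h4
    have hq0 : q1 u ≠ 0 := by
      intro h0
      rw [h0] at c1
      linarith
    by_cases e1 : q1 u = δ ^ 2
    · exact Or.inr (Or.inl e1)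
    by_cases e2 : P u = 1
    · exact Or.inr (Or.inr (Or.inl e2))
    by_cases e3 : q1 u = q2 u
    · exact Or.inr (Or.inr (Or.inr (Or.inl ⟨e3, hq0⟩)))
    by_cases e4 : S u = 0
    · exact Or.inr (Or.inr (Or.inr (Or.inr (Or.inl ⟨by rw [e4, zero_mul], hq0⟩))))
    by_cases e5 : 2 * S u = q1 u
    · exact Or.inr (Or.inr (Or.inr (Or.inr (Or.inr (Or.inl ⟨by rw [← e5]; ring, hq0⟩)))))
    by_cases e6 : ∃ j, cc (rw2 B u) j = κ j
    · obtain ⟨j, hj⟩ := e6
      exact Or.inr (Or.inr (Or.inr (Or.inr (Or.inr (Or.inr (Or.inl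
        (Set.mem_iUnion.2 ⟨j, (hgU j u hU).trans hj⟩)))))))
    by_cases e7 : ∃ j, cc (rw2 B u) j = κ j + 1
    · obtain ⟨j, hj⟩ := e7
      exact Or.inr (Or.inr (Or.inr (Or.inr (Or.inr (Or.inr (Or.inr (Or.inl
        (Set.mem_iUnion.2 ⟨j, (hgU j u hU).trans hj⟩))))))))
    by_cases e8 : ∃ i, ui (rw2 B u) i = 0
    · obtain ⟨i, hi⟩ := e8
      exact Or.inr (Or.inr (Or.inr (Or.inr (Or.inr (Or.inr (Or.inr (Or.inr (Or.inl
        (Set.mem_iUnion.2 ⟨i, hi, hU⟩)))))))))
    by_cases e9 : ∃ i, ui (rw2 B u) i = 1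
    · obtain ⟨i, hi⟩ := e9
      exact Or.inr (Or.inr (Or.inr (Or.inr (Or.inr (Or.inr (Or.inr (Or.inr (Or.inr
        (Set.mem_iUnion.2 ⟨i, hi, hU⟩)))))))))
    exfalso
    apply hnu
    push Not at e6 e7 e8 e9
    exact ⟨lt_of_le_of_ne c1 (Ne.symm e1), lt_of_le_of_ne c2 e3, lt_of_le_of_ne c3 (Ne.symm e4),
      lt_of_le_of_ne c4 e5, hU, lt_of_le_of_ne c5 e2, fun j =>
      ⟨lt_of_le_of_ne (c6 j).1 (Ne.symm (e6 j)), lt_of_le_of_ne (c6 j).2 (e7 j)⟩, fun i hi =>
      ⟨lt_of_le_of_ne (c7 i hi).1 (Ne.symm (e8 i)), lt_of_le_of_ne (c7 i hi).2 (e9 i)⟩⟩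
  refine measure_mono_null hsub ?_
  refine measure_union_null hUc (measure_union_null (n1 _ hδ2) (measure_union_null n2
    (measure_union_null n3 (measure_union_null (n4 0) (measure_union_null (n4 (1 / 2))
    (measure_union_null (measure_iUnion_null hκ1) (measure_union_null (measure_iUnion_null hκ2)
    (measure_union_null (measure_iUnion_null fun i => n5 i 0)
      (measure_iUnion_null fun i => n5 i 1)))))))))

end Pool.Agent.Y891.KE
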