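import Pool.Agent.Y891.KE.Lin

set_option autoImplicit false
set_option linter.unusedSectionVars false
set_option linter.unusedVariables false

/-! Project KE (helper714): the region has positive volume. -/

namespace Pool.Agent.Y891.KE

open Pool.Agent.Y714.KF (FI sp ct nm pm ext br gl ubas qf bk el sg bf rc sg_rc sg_add sg_smul
  bf_comb2 continuous_sg sg_ne continuous_br continuous_pm pm_pos br_gl pm_gl red_exists)
open Pool.Agent.Y714.KE
open Pool.Agent.Y455.KF (null_ker)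
open Pool.Agent.Y179.KF (mt mt_null)
open NumberField FractionalIdeal Module Finset ComplexConjugate MeasureTheory Filter Topology
open scoped nonZeroDivisors

variable {s : Type} [Fintype s] [DecidableEq s] {K : s → Type} [∀ i, Field (K i)]
  [∀ i, NumberField (K i)]

theorem un_ne (u : ∀ i, (𝓞 (K i))ˣ) (i : s) : un u i ≠ 0 := Units.coe_ne_zero (u i)

/-- every nondegenerate point can be moved to the closed region -/
theorem exists_move (hodd : Odd (dg K)) (hn : 3 ≤ dg K) (b : Bs K) (κ : Ux K → ℝ) (i₀ : s)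
    (u : Ix K ⊕ Ix K → ℝ) (hnd : u ∈ Ub b) :
    ∃ (v : ∀ i, (𝓞 (K i))ˣ) (q : s → ℤ) (m n k l : ℤ) (j : ℕ),
      (m * l - n * k = 1 ∨ m * l - n * k = -1) ∧
      mt (m : ℝ) n k l (D2 b (un v) (fun i => Real.exp (q i)) u) ∈
        Dc b κ i₀ (1 / ((j : ℝ) + 1)) := by
  have hcard : 2 ≤ Fintype.card (Em K) := by rw [card_Em]; omega
  set v0 := rw2 b u with hv0
  have hv : 0 < pm v0 := pm_pos hcard hnd
  have hx : ∀ e, 0 < pm (ext v0 e) := pm_ext_pos hodd hv
  obtain ⟨g1, g2, -, -⟩ := unt v0 hv hx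
  obtain ⟨w, hnz⟩ := g1 κ
  obtain ⟨g3, g4⟩ := g2 w
  set v1 : Em K → ℂ × ℂ := fun e => e.2 (un w e.1) • v0 e with hv1
  have hp1 : 0 < pm v1 := by rw [g3]; exact hv
  have hx1 : ∀ e, 0 < pm (ext v1 e) := pm_ext_pos hodd hp1
  -- the scaling
  set Cn : ℝ := ∑ i ∈ univ.erase i₀, (2 * (finrank ℚ (K i) : ℝ)) * (-(⌊ui v0 i⌋ : ℝ)) with hCn
  obtain ⟨N, hN⟩ := exists_nat_ge (Cn + Real.log (pm v1))
  set q : s → ℤ := fun i => if i = i₀ then -(N : ℤ) else -⌊ui v0 i⌋ with hq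
  set a : s → ℝ := fun i => Real.exp (q i) with ha
  have ha0 : ∀ i, 0 < a i := fun i => Real.exp_pos _
  obtain ⟨k1, k2, k3⟩ := sca v1 hp1 hx1 a ha0
  have hrwD : rw2 b (D2 b (un w) a u) = fun e => (a e.1 : ℂ) • v1 e := rw2_D2 b (un w) a u
  set u2 := D2 b (un w) a u with hu2
  rw [← hrwD] at k1 k2 k3
  have hnd2 : u2 ∈ Ub b := by
    intro e f hef
    rw [hrwD]
    simp only [hv1]
    rw [br_smul, br_smul]
    refine mul_ne_zero (mul_ne_zero ?_ ?_) (mul_ne_zero (mul_ne_zero ?_ ?_) (hnd e f hef))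
    · exact_mod_cast (ha0 e.1).ne'
    · exact_mod_cast (ha0 f.1).ne'
    · exact (map_ne_zero e.2).2 (un_ne w e.1)
    · exact (map_ne_zero f.2).2 (un_ne w f.1)
  have hpm2 : pm (rw2 b u2) ≤ 1 := by
    have e1 : (∏ i, a i ^ (2 * finrank ℚ (K i))) = Real.exp (Cn - 2 * finrank ℚ (K i₀) * N) := by
      have e2 : ∀ i, a i ^ (2 * finrank ℚ (K i)) =
          Real.exp ((2 * (finrank ℚ (K i) : ℝ)) * (q i : ℝ)) := by
        intro i
        rw [ha]
        simp only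
        rw [← Real.exp_nat_mul]
        push_cast
        rfl
      rw [prod_congr rfl (fun i _ => e2 i), ← Real.exp_sum]
      congr 1
      rw [← add_sum_erase univ _ (mem_univ i₀), hCn]
      have e3 : (q i₀ : ℝ) = -(N : ℝ) := by
        rw [hq]
        simp
      have e4 : ∑ x ∈ univ.erase i₀, 2 * (finrank ℚ (K x) : ℝ) * (q x : ℝ) =
          ∑ i ∈ univ.erase i₀, (2 * (finrank ℚ (K i) : ℝ)) * (-(⌊ui v0 i⌋ : ℝ)) := by
        refine sum_congr rfl fun i hi => ?_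
        have : i ≠ i₀ := (mem_erase.1 hi).1
        rw [hq]
        simp [this]
      rw [e3, e4]
      ring
    rw [k3, e1]
    have e5 : pm v1 = Real.exp (Real.log (pm v1)) := (Real.exp_log hp1).symm
    rw [e5, ← Real.exp_add, Real.exp_le_one_iff]
    have e6 : (1 : ℝ) ≤ (finrank ℚ (K i₀) : ℝ) := by
      have : 0 < finrank ℚ (K i₀) := finrank_pos
      exact_mod_cast this
    have e7 : (0 : ℝ) ≤ N := Nat.cast_nonneg N
    nlinarith
  have hp2 : 0 < pm (rw2 b u2) := pm_pos hcard hnd2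
  have hx2 : ∀ e, 0 < pm (ext (rw2 b u2) e) := pm_ext_pos hodd hp2
  have hui : ∀ i, i ≠ i₀ → 0 ≤ ui (rw2 b u2) i ∧ ui (rw2 b u2) i < 1 := by
    intro i hi
    have e1 : Real.log (a i) = -(⌊ui v0 i⌋ : ℝ) := by
      rw [ha]
      simp only
      rw [Real.log_exp, hq]
      simp [hi]
    rw [k2 i, g4 i, e1]
    have e2 := Int.floor_le (ui v0 i)
    have e3 := Int.lt_floor_add_one (ui v0 i)
    constructor <;> linarith
  -- reduction
  set A := bfA b (lf u2) (lf u2) with hA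
  set S := bfA b (lf u2) (rt u2) with hS
  set D := bfA b (rt u2) (rt u2) with hD
  have hA0 : 0 < A := bfA_pos b (by omega) hnd2
  have hpos : 0 < A * D - S ^ 2 := by
    have h := lagrangeA b u2
    have h1 : 0 < ∑ σ : Em K, ∑ τ : Em K, ‖br (rw2 b u2 σ) (rw2 b u2 τ)‖ ^ 2 := by
      obtain ⟨σ, τ, hst⟩ : ∃ σ τ : Em K, σ ≠ τ :=
        Fintype.exists_pair_of_one_lt_card (by omega)
      refine sum_pos' (fun _ _ => sum_nonneg fun _ _ => by positivity) ⟨σ, mem_univ σ, ?_⟩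
      refine sum_pos' (fun _ _ => by positivity) ⟨τ, mem_univ τ, ?_⟩
      have := hnd2 σ τ hst
      positivity
    rw [← hA, ← hD, ← hS] at h
    linarith
  have hD0 : 0 < D := by
    by_contra hcon
    push Not at hcon
    nlinarith [sq_nonneg S]
  have hAC : 0 < A + D := by linarith
  obtain ⟨m, n, k, l, hdet, r1, r2, r3⟩ := red_exists A S D ((A * D - S ^ 2) / (A + D))
    (by positivity) (by
      intro m n
      rw [div_mul_eq_mul_div, div_le_iff₀ hAC]
      have : (m ^ 2 * A + 2 * m * n * S + n ^ 2 * D) * (A + D) - (A * D - S ^ 2) * (m ^ 2 + n ^ 2) =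
          (m * A + n * S) ^ 2 + (m * S + n * D) ^ 2 := by ring
      nlinarith [sq_nonneg (m * A + n * S), sq_nonneg (m * S + n * D)])
  have hdetC : ‖(((m : ℝ) : ℂ) * ((l : ℝ) : ℂ) - ((n : ℝ) : ℂ) * ((k : ℝ) : ℂ))‖ = 1 := by
    have e : (((m : ℝ) : ℂ) * ((l : ℝ) : ℂ) - ((n : ℝ) : ℂ) * ((k : ℝ) : ℂ)) =
        ((m * l - n * k : ℤ) : ℂ) := by push_cast; ring
    rw [e]
    rcases hdet with h | h <;> rw [h] <;> simp
  have hdet0 : (((m : ℝ) : ℂ) * ((l : ℝ) : ℂ) - ((n : ℝ) : ℂ) * ((k : ℝ) : ℂ)) ≠ 0 := by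
    intro h
    rw [h, norm_zero] at hdetC
    exact zero_ne_one hdetC
  have hdetR : ((m : ℝ) * l - n * k) ≠ 0 := by
    intro h
    apply hdet0
    exact_mod_cast h
  set u' := mt (m : ℝ) n k l u2 with hu'
  have hrw : rw2 b u' = fun e => gl (m : ℝ) (n : ℝ) (k : ℝ) (l : ℝ) (rw2 b u2 e) :=
    rw2_mt b _ _ _ _ u2
  have hl : lf u' = (m : ℝ) • lf u2 + (n : ℝ) • rt u2 := rfl
  have hr : rt u' = (k : ℝ) • lf u2 + (l : ℝ) • rt u2 := rfl
  have hnd' : u' ∈ Ub b := Ub_mt hnd2 hdetR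
  obtain ⟨t1, t2⟩ := gla (rw2 b u2) hp2 hx2 (m : ℝ) (n : ℝ) (k : ℝ) (l : ℝ) hdet0
  rw [← hrw] at t1 t2
  have hqp : 0 < bfA b (lf u') (lf u') := bfA_pos b (by omega) hnd'
  obtain ⟨j, hj⟩ := exists_nat_one_div_lt hqp
  refine ⟨w, q, m, n, k, l, j, hdet, ?_, ?_, ?_, ?_, hnd', ?_, ?_, ?_⟩
  · refine le_trans ?_ hj.le
    have h1 : 0 < 1 / ((j : ℝ) + 1) := by positivity
    have h2 : 1 / ((j : ℝ) + 1) ≤ 1 := by
      rw [div_le_one (by positivity)]
      linarith [(Nat.cast_nonneg j : (0 : ℝ) ≤ j)]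
    nlinarith
  · show bfA b (lf u') (lf u') ≤ bfA b (rt u') (rt u')
    rw [hl, hr, bfA_comb, bfA_comb]
    exact r1
  · show 0 ≤ bfA b (lf u') (rt u')
    rw [hl, hr, bfA_comb2]
    linarith
  · show 2 * bfA b (lf u') (rt u') ≤ bfA b (lf u') (lf u')
    rw [hl, hr, bfA_comb2, bfA_comb]
    exact r3
  · show pm (rw2 b u') ≤ 1
    rw [hrw, pm_gl, hdetC, one_pow, one_mul]
    exact hpm2
  · intro i
    show κ i ≤ cc (rw2 b u') i ∧ cc (rw2 b u') i ≤ κ i + 1
    rw [t1, k1]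
    exact ⟨(hnz i).1, (hnz i).2.le⟩
  · intro i hi
    show 0 ≤ ui (rw2 b u') i ∧ ui (rw2 b u') i ≤ 1
    rw [t2 i, hdetC, Real.log_one, mul_zero, add_zero]
    exact ⟨(hui i hi).1, (hui i hi).2.le⟩

theorem vol (h1 : S_BRN K) (_h2 : S_CCC K) : S_VOL K := by
  intro hodd hn b κ i₀ hnull
  classical
  have hcK : ∀ i, Countable (K i) := fun i => ((b i).equivFun.injective).countable
  have hcu : ∀ i, Countable (𝓞 (K i))ˣ := fun i =>
    (NumberField.Units.coe_injective (K i)).countable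
  by_contra hcon
  push Not at hcon
  have hDc : ∀ δ : ℝ, 0 < δ → volume (Dc b κ i₀ δ) = 0 := by
    intro δ hδ
    have h3 : Dc b κ i₀ δ ⊆ (closure (Dc b κ i₀ δ) \ Dm b κ i₀ δ) ∪ Dm b κ i₀ δ := by
      intro u hu
      by_cases h : u ∈ Dm b κ i₀ δ
      · exact Or.inr h
      · exact Or.inl ⟨subset_closure hu, h⟩
    refine measure_mono_null h3 (measure_union_null (hnull δ hδ) ?_)
    exact le_antisymm (hcon δ hδ) bot_le
  have hUne : (Ub b).Nonempty := by
    by_contra hno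
    rw [Set.not_nonempty_iff_eq_empty] at hno
    have h3 := null_Ubc h1 b
    rw [hno, Set.compl_empty] at h3
    have h6 : (0 : ENNReal) < volume (Set.univ : Set (Ix K ⊕ Ix K → ℝ)) :=
      isOpen_univ.measure_pos volume Set.univ_nonempty
    rw [h3] at h6
    exact lt_irrefl _ h6
  have hUnull : volume (Ub b) = 0 := by
    have h3 : Ub b ⊆ ⋃ q : (∀ i, (𝓞 (K i))ˣ) × (s → ℤ) × (ℤ × ℤ × ℤ × ℤ) × ℕ,
        {u | (q.2.2.1.1 * q.2.2.1.2.2.2 - q.2.2.1.2.1 * q.2.2.1.2.2.1 = 1 ∨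
          q.2.2.1.1 * q.2.2.1.2.2.2 - q.2.2.1.2.1 * q.2.2.1.2.2.1 = -1) ∧
          mt (q.2.2.1.1 : ℝ) q.2.2.1.2.1 q.2.2.1.2.2.1 q.2.2.1.2.2.2
            (D2 b (un q.1) (fun i => Real.exp (q.2.1 i)) u) ∈
            Dc b κ i₀ (1 / ((q.2.2.2 : ℝ) + 1))} := by
      intro u hu
      obtain ⟨v, q, m, n, k, l, j, hd, hm⟩ := exists_move hodd hn b κ i₀ u hu
      rw [Set.mem_iUnion]
      exact ⟨(v, q, (m, n, k, l), j), hd, hm⟩
    refine measure_mono_null h3 ?_
    rw [measure_iUnion_null_iff]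
    rintro ⟨v, q, ⟨m, n, k, l⟩, j⟩
    simp only
    by_cases hd : m * l - n * k = 1 ∨ m * l - n * k = -1
    · have hdR : ((m : ℝ) * l - n * k) ≠ 0 := by
        rcases hd with h | h
        · have : ((m : ℝ) * l - n * k) = 1 := by exact_mod_cast h
          rw [this]; norm_num
        · have : ((m : ℝ) * l - n * k) = -1 := by exact_mod_cast h
          rw [this]; norm_num
      have n1 := mt_null (m : ℝ) n k l hdR _ (hDc (1 / ((j : ℝ) + 1)) (by positivity))
      have n2 := null_D2 b (v := un v) (un_ne v) (r := fun i => Real.exp (q i))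
        (fun i => (Real.exp_pos _).ne') n1
      exact measure_mono_null (fun u hu => hu.2) n2
    · refine measure_mono_null (fun u hu => ?_) (measure_empty (μ := volume))
      exact absurd hu.1 hd
  have := (isOpen_Ub b).measure_pos volume hUne
  rw [hUnull] at this
  exact lt_irrefl _ this

end Pool.Agent.Y891.KE
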