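import Pool.Agent.Y714.KE.Bas
import Pool.Agent.Y455.KF.Brn
import Pool.Agent.Y179.KF.Bdry
import Pool.Agent.Y983.KF.Vol

set_option autoImplicit false
set_option linter.unusedSectionVars false
set_option linter.unusedVariables false

/-! Project KE (helper714): linear algebra of the real coordinates. -/

namespace Pool.Agent.Y891.KE

open Pool.Agent.Y714.KF (FI sp ct nm pm ext br gl ubas qf bk el sg bf rc sg_rc sg_add sg_smul
  bf_comb2 continuous_sg sg_ne continuous_br continuous_pm pm_pos br_gl)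
open Pool.Agent.Y714.KE
open Pool.Agent.Y455.KF (null_ker)
open Pool.Agent.Y179.KF (mt mt_null)
open Pool.Agent.Y983.KF (mulA sg_mulA)
open NumberField FractionalIdeal Module Finset ComplexConjugate MeasureTheory Filter Topology
open scoped nonZeroDivisors

variable {s : Type} [Fintype s] [DecidableEq s] {K : s → Type} [∀ i, Field (K i)]
  [∀ i, NumberField (K i)]

/-- the real extension of an embedding as a linear map -/
noncomputable def SG (b : Bs K) (e : Em K) : (Ix K → ℝ) →ₗ[ℝ] ℂ where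
  toFun x := sg (b e.1) e.2 (fun j => x ⟨e.1, j⟩)
  map_add' x y := sg_add (b e.1) e.2 (fun j => x ⟨e.1, j⟩) (fun j => y ⟨e.1, j⟩)
  map_smul' t x := by
    have := sg_smul (b e.1) e.2 t (fun j => x ⟨e.1, j⟩)
    rw [RingHom.id_apply, Complex.real_smul, ← this]
    rfl

theorem SG_apply (b : Bs K) (e : Em K) (x : Ix K → ℝ) :
    SG b e x = sg (b e.1) e.2 (fun j => x ⟨e.1, j⟩) := rfl

theorem rw2_eq (b : Bs K) (u : Ix K ⊕ Ix K → ℝ) (e : Em K) :
    rw2 b u e = (SG b e (lf u), SG b e (rt u)) := rfl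

/-- real coordinates of an element -/
noncomputable def rcA (b : Bs K) (θ : Al K) : Ix K → ℝ := fun k => rc (b k.1) (θ k.1) k.2

theorem SG_rcA (b : Bs K) (e : Em K) (θ : Al K) : SG b e (rcA b θ) = e.2 (θ e.1) :=
  sg_rc (b e.1) e.2 (θ e.1)

theorem em_ext {e f : Em K} (h : ∀ θ : Al K, e.2 (θ e.1) = f.2 (θ f.1)) : e = f := by
  obtain ⟨i, σ⟩ := e
  obtain ⟨j, τ⟩ := f
  by_cases hij : i = j
  · subst hij
    congr 1
    ext x
    have := h (Pi.single i x)
    simp only [Pi.single_eq_same] at this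
    exact this
  · exfalso
    have := h (Pi.single i 1)
    simp only [Pi.single_eq_same] at this
    rw [Pi.single_eq_of_ne (Ne.symm hij), map_one, map_zero] at this
    exact one_ne_zero this

theorem SG_ne (b : Bs K) (x : Ix K → ℝ) (h : ∀ e, SG b e x = 0) : x = 0 := by
  funext ⟨i, j⟩
  have := sg_ne (b i) (fun j => x ⟨i, j⟩) (fun σ => h ⟨i, σ⟩)
  exact congrFun this j

theorem continuous_SG (b : Bs K) (e : Em K) : Continuous (SG b e) :=
  (continuous_sg (b e.1) e.2).comp (continuous_pi fun j => continuous_apply _)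

theorem bfA_comb2 (b : Bs K) (m n k l : ℝ) (x y : Ix K → ℝ) :
    bfA b (m • x + n • y) (k • x + l • y) = m * k * bfA b x x + (m * l + n * k) * bfA b x y +
      n * l * bfA b y y := by
  unfold bfA
  rw [mul_sum, mul_sum, mul_sum, ← sum_add_distrib, ← sum_add_distrib]
  refine sum_congr rfl fun i _ => ?_
  exact bf_comb2 (b i) m n k l (fun j => x ⟨i, j⟩) (fun j => y ⟨i, j⟩)

theorem bfA_comb (b : Bs K) (m n : ℝ) (x y : Ix K → ℝ) :
    bfA b (m • x + n • y) (m • x + n • y) = m ^ 2 * bfA b x x + 2 * m * n * bfA b x y +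
      n ^ 2 * bfA b y y := by
  rw [bfA_comb2]; ring

theorem continuous_bfA (b : Bs K) {X : Type} [TopologicalSpace X] {f g : X → Ix K → ℝ}
    (hf : Continuous f) (hg : Continuous g) : Continuous fun u => bfA b (f u) (g u) := by
  unfold bfA
  refine continuous_finset_sum _ fun i _ => ?_
  refine Pool.Agent.Y179.KF.continuous_bf (b i) ?_ ?_
  · exact continuous_pi fun j => (continuous_apply _).comp hf
  · exact continuous_pi fun j => (continuous_apply _).comp hg

theorem continuous_lf : Continuous fun (u : Ix K ⊕ Ix K → ℝ) => lf u :=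
  continuous_pi fun i => continuous_apply (Sum.inl i)

theorem continuous_rt : Continuous fun (u : Ix K ⊕ Ix K → ℝ) => rt u :=
  continuous_pi fun i => continuous_apply (Sum.inr i)

theorem continuous_rw2e (b : Bs K) (e : Em K) : Continuous fun u : Ix K ⊕ Ix K → ℝ => rw2 b u e :=
  ((continuous_SG b e).comp continuous_lf).prodMk ((continuous_SG b e).comp continuous_rt)

theorem cont_rw2 (b : Bs K) : Continuous (rw2 b) := continuous_pi fun e => continuous_rw2e b e

theorem lf_mt (a b c d : ℝ) (u : Ix K ⊕ Ix K → ℝ) : lf (mt a b c d u) = a • lf u + b • rt u := rfl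

theorem rt_mt (a b c d : ℝ) (u : Ix K ⊕ Ix K → ℝ) : rt (mt a b c d u) = c • lf u + d • rt u := rfl

theorem rw2_mt (B : Bs K) (a b c d : ℝ) (u : Ix K ⊕ Ix K → ℝ) :
    rw2 B (mt a b c d u) = fun e => gl a b c d (rw2 B u e) := by
  funext e
  rw [rw2_eq, rw2_eq, lf_mt, rt_mt, map_add, map_add, map_smul, map_smul, map_smul, map_smul]
  rfl

/-- the region of the nonzero brackets -/
def Ub (b : Bs K) : Set (Ix K ⊕ Ix K → ℝ) :=
  {u | ∀ e f : Em K, e ≠ f → br (rw2 b u e) (rw2 b u f) ≠ 0}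

theorem isOpen_Ub (b : Bs K) : IsOpen (Ub b) := by
  have h3 : Ub b = ⋂ q : (Em K) × (Em K), {u | q.1 ≠ q.2 →
      br (rw2 b u q.1) (rw2 b u q.2) ≠ 0} := by
    ext u
    simp only [Ub, Set.mem_setOf_eq, Set.mem_iInter, Prod.forall]
  rw [h3]
  refine isOpen_iInter_of_finite fun q => ?_
  by_cases hq : q.1 = q.2
  · have : {u : Ix K ⊕ Ix K → ℝ | q.1 ≠ q.2 → br (rw2 b u q.1) (rw2 b u q.2) ≠ 0} =
        Set.univ := by
      ext u
      simp [hq]
    rw [this]
    exact isOpen_univ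
  · have h4 : {u : Ix K ⊕ Ix K → ℝ | q.1 ≠ q.2 → br (rw2 b u q.1) (rw2 b u q.2) ≠ 0} =
        {u | br (rw2 b u q.1) (rw2 b u q.2) ≠ 0} := by
      ext u
      simp [hq]
    rw [h4]
    have h5 : Continuous fun u : Ix K ⊕ Ix K → ℝ => br (rw2 b u q.1) (rw2 b u q.2) :=
      continuous_br.comp ((continuous_rw2e b q.1).prodMk (continuous_rw2e b q.2))
    exact isOpen_ne_fun h5 continuous_const

theorem null_Ubc (h2 : S_BRN K) (b : Bs K) : volume (Ub b)ᶜ = 0 := by
  have h3 : (Ub b)ᶜ ⊆ ⋃ q : (Em K) × (Em K), {u | q.1 ≠ q.2 ∧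
      br (rw2 b u q.1) (rw2 b u q.2) = 0} := by
    intro u hu
    simp only [Ub, Set.mem_compl_iff, Set.mem_setOf_eq] at hu
    push Not at hu
    obtain ⟨σ, τ, hne, h0⟩ := hu
    exact Set.mem_iUnion.2 ⟨(σ, τ), hne, h0⟩
  refine measure_mono_null h3 (measure_iUnion_null fun q => ?_)
  by_cases hq : q.1 = q.2
  · have : {u : Ix K ⊕ Ix K → ℝ | q.1 ≠ q.2 ∧ br (rw2 b u q.1) (rw2 b u q.2) = 0} = ∅ := by
      ext u
      simp [hq]
    rw [this, measure_empty]
  · exact measure_mono_null (fun u hu => hu.2) (h2 b q.1 q.2 hq)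

theorem br_smul (a c : ℂ) (x y : ℂ × ℂ) : br (a • x) (c • y) = a * c * br x y := by
  unfold br
  simp only [Prod.smul_fst, Prod.smul_snd, smul_eq_mul]
  ring

theorem Ub_mt {b : Bs K} {u : Ix K ⊕ Ix K → ℝ} (hu : u ∈ Ub b) {m n k l : ℝ}
    (h : m * l - n * k ≠ 0) : mt m n k l u ∈ Ub b := by
  intro e f hef
  rw [rw2_mt]
  simp only
  rw [br_gl]
  refine mul_ne_zero ?_ (hu e f hef)
  exact_mod_cast h

/-- componentwise multiplication and scaling -/
noncomputable def DA (b : Bs K) (v : Al K) (r : s → ℝ) : (Ix K → ℝ) →ₗ[ℝ] (Ix K → ℝ) where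
  toFun x := fun k => r k.1 * mulA (b k.1) (v k.1) (fun j => x ⟨k.1, j⟩) k.2
  map_add' x y := by
    funext k
    have h := map_add (mulA (b k.1) (v k.1)) (fun j => x ⟨k.1, j⟩) (fun j => y ⟨k.1, j⟩)
    have h2 := congrFun h k.2
    simp only [Pi.add_apply] at h2 ⊢
    rw [← mul_add, ← h2]
    rfl
  map_smul' t x := by
    funext k
    have h := map_smul (mulA (b k.1) (v k.1)) t (fun j => x ⟨k.1, j⟩)
    have h2 := congrFun h k.2
    simp only [Pi.smul_apply, smul_eq_mul, RingHom.id_apply] at h2 ⊢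
    rw [mul_left_comm, ← h2]
    rfl

theorem SG_DA (b : Bs K) (v : Al K) (r : s → ℝ) (e : Em K) (x : Ix K → ℝ) :
    SG b e (DA b v r x) = (r e.1 : ℂ) * (e.2 (v e.1) * SG b e x) := by
  have h1 : (fun j => DA b v r x ⟨e.1, j⟩) =
      r e.1 • mulA (b e.1) (v e.1) (fun j => x ⟨e.1, j⟩) := rfl
  rw [SG_apply, h1, sg_smul, sg_mulA, SG_apply]

/-- componentwise multiplication and scaling of pairs -/
noncomputable def D2 (b : Bs K) (v : Al K) (r : s → ℝ) :
    (Ix K ⊕ Ix K → ℝ) →ₗ[ℝ] (Ix K ⊕ Ix K → ℝ) where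
  toFun u := Sum.elim (DA b v r (lf u)) (DA b v r (rt u))
  map_add' u u' := by
    have e1 : lf (u + u') = lf u + lf u' := rfl
    have e2 : rt (u + u') = rt u + rt u' := rfl
    rw [e1, e2, map_add, map_add]
    funext i
    rcases i with i | i <;> rfl
  map_smul' c u := by
    have e1 : lf (c • u) = c • lf u := rfl
    have e2 : rt (c • u) = c • rt u := rfl
    rw [e1, e2, map_smul, map_smul]
    funext i
    rcases i with i | i <;> rfl

theorem lf_D2 (b : Bs K) (v : Al K) (r : s → ℝ) (u : Ix K ⊕ Ix K → ℝ) :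
    lf (D2 b v r u) = DA b v r (lf u) := rfl

theorem rt_D2 (b : Bs K) (v : Al K) (r : s → ℝ) (u : Ix K ⊕ Ix K → ℝ) :
    rt (D2 b v r u) = DA b v r (rt u) := rfl

theorem rw2_D2 (b : Bs K) (v : Al K) (r : s → ℝ) (u : Ix K ⊕ Ix K → ℝ) :
    rw2 b (D2 b v r u) = fun e => (r e.1 : ℂ) • (e.2 (v e.1) • rw2 b u e) := by
  funext e
  rw [rw2_eq, rw2_eq, lf_D2, rt_D2, SG_DA, SG_DA]
  simp only [Prod.smul_mk, smul_eq_mul]

theorem D2_det (b : Bs K) {v : Al K} (hv : ∀ i, v i ≠ 0) {r : s → ℝ} (hr : ∀ i, r i ≠ 0) :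
    LinearMap.det (D2 b v r) ≠ 0 := by
  have hA : ∀ x, DA b v r x = 0 → x = 0 := by
    intro x hx
    apply SG_ne b
    intro e
    have h1 := SG_DA b v r e x
    rw [hx, map_zero] at h1
    have h2 : (r e.1 : ℂ) ≠ 0 := by exact_mod_cast hr e.1
    have h3 := (mul_eq_zero.1 h1.symm).resolve_left h2
    exact (mul_eq_zero.1 h3).resolve_left ((map_ne_zero e.2).2 (hv e.1))
  have hinj : Function.Injective (D2 b v r) := by
    rw [← LinearMap.ker_eq_bot, LinearMap.ker_eq_bot']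
    intro u hu
    have h1 : DA b v r (lf u) = 0 := by
      rw [← lf_D2 b v r u, hu]; rfl
    have h2 : DA b v r (rt u) = 0 := by
      rw [← rt_D2 b v r u, hu]; rfl
    funext i
    rcases i with i | i
    · exact congrFun (hA _ h1) i
    · exact congrFun (hA _ h2) i
  have := (LinearEquiv.ofInjectiveEndo (D2 b v r) hinj).isUnit_det'
  exact this.ne_zero

theorem null_D2 (b : Bs K) {v : Al K} (hv : ∀ i, v i ≠ 0) {r : s → ℝ} (hr : ∀ i, r i ≠ 0)
    {S : Set (Ix K ⊕ Ix K → ℝ)} (hS : volume S = 0) : volume (D2 b v r ⁻¹' S) = 0 := by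
  rw [Measure.addHaar_preimage_linearMap _ (D2_det b hv hr), hS, mul_zero]

theorem bfA_pos (b : Bs K) (hn : 2 ≤ dg K) {u : Ix K ⊕ Ix K → ℝ} (hu : u ∈ Ub b) :
    0 < bfA b (lf u) (lf u) := by
  obtain ⟨c, C, hc, hC, h⟩ := exists_bfA_bound b
  have h1 := (h (lf u)).1
  have h2 : lf u ≠ 0 := by
    intro h0
    obtain ⟨e, f, hef⟩ : ∃ e f : Em K, e ≠ f := by
      have : 1 < Fintype.card (Em K) := by rw [card_Em]; omega
      exact Fintype.exists_pair_of_one_lt_card this
    apply hu e f hef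
    rw [rw2_eq, rw2_eq, h0, map_zero, map_zero]
    simp [br]
  have h3 : 0 < ‖lf u‖ := norm_pos_iff.2 h2
  have h4 : 0 < c * ‖lf u‖ ^ 2 := by positivity
  linarith

end Pool.Agent.Y891.KE
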